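import Mathlib
import Pool.Agent.TotalDomNG.Basic

open Pool.Agent.TotalDomNG

namespace Pool.Agent.Results.MP_4101c8_co.SumDisproof

/-- For every `t ≥ 2` there is a connected graph `G` of order `n = 14 t` with `δ*(G) = 4`,
`γ_t(G) + γ_t(Gᶜ) = 3n/7 + 2`, which exceeds `2n/5 + 2`. -/
theorem result : ∀ t : ℕ, 2 ≤ t → ∃ (V : Type) (_ : Fintype V) (G : SimpleGraph V),
    Fintype.card V = 14 * t ∧ G.Connected ∧ deltaStar G = 4 ∧
    (totalDominationNumber G : ℚ) + totalDominationNumber Gᶜ
      = 3 * (Fintype.card V : ℚ) / 7 + 2 ∧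
    2 * (Fintype.card V : ℚ) / 5 + 2
      < (totalDominationNumber G : ℚ) + totalDominationNumber Gᶜ := by
  intro t ht
  have hn : (Fintype.card (Fin t × Bool × Fin 7) : ℚ) = 14 * t := by
    rw [card_V]; push_cast; ring
  have ht' : (2 : ℚ) ≤ t := by exact_mod_cast ht
  refine ⟨Fin t × Bool × Fin 7, inferInstance, (copies t)ᶜ, card_V t,
    connected_compl_copies t ht, deltaStar_compl_copies t ht, ?_, ?_⟩
  · rw [compl_compl, totalDominationNumber_compl_copies t ht, totalDominationNumber_copies, hn]
    push_cast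
    ring
  · rw [compl_compl, totalDominationNumber_compl_copies t ht, totalDominationNumber_copies, hn]
    push_cast
    linarith

end Pool.Agent.Results.MP_4101c8_co.SumDisproof
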